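import Pool.Agent.Helper36.DC.Defs

/-!
# Collisions of the binary and the ternary sum of digits: the exact exponent. Definitions.

`s b n` (Helper36.DC) is the sum of the base `b` digits of `n`, `d n = s 2 n - s 3 n`.
-/

set_option autoImplicit false

namespace Pool.Agent.Helper47.EX

open Pool.Agent.Helper36.DC Finset

/-- The exponent of the largest power of `3` which is at most `2 ^ g`. -/
def hh (g : ℕ) : ℕ := Nat.log 3 (2 ^ g)

/-- The ratio `3 ^ hh g / 2 ^ g`, a number in `(1/3, 1]`. -/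
noncomputable def th (g : ℕ) : ℝ := (3 : ℝ) ^ hh g / (2 : ℝ) ^ g

/-- The cells `[2^g Y, 2^g (Y+1))` and `[3^h Z, 3^h (Z+1))` intersect. -/
def Ov (g h Y Z : ℕ) : Prop :=
  2 ^ g * Y < 3 ^ h * (Z + 1) ∧ 3 ^ h * Z < 2 ^ g * (Y + 1)

/-- The cells `[2^g Y, 2^g (Y+1))` and `[3^h Z, 3^h (Z+1))` overlap in a stretch of length
at least `2 ^ g / 6` (if `2 ^ g ≤ 6 * 3 ^ h`). -/
def OK (g h Y Z : ℕ) : Prop :=
  6 * (2 ^ g * Y) + 2 ^ g ≤ 6 * (3 ^ h * (Z + 1)) ∧ 6 * (3 ^ h * Z) + 2 ^ g ≤ 6 * (2 ^ g * (Y + 1))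

instance (g h Y Z : ℕ) : Decidable (Ov g h Y Z) := by unfold Ov; infer_instance

instance (g h Y Z : ℕ) : Decidable (OK g h Y Z) := by unfold OK; infer_instance

/-- Sum over the intersecting sub-cells of level `(g, h)` of the cell `(Y, Z)` of level
`(g + a, h + b)`. -/
noncomputable def SOv (x : ℝ) (g h a b Y Z : ℕ) : ℝ :=
  ∑ u ∈ range (2 ^ a), ∑ v ∈ range (3 ^ b),
    if Ov g h (2 ^ a * Y + u) (3 ^ b * Z + v) then x ^ (s 2 u) / x ^ (s 3 v) else 0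

/-- Sum over the well overlapping sub-cells of level `(g, h)` of the cell `(Y, Z)` of level
`(g + a, h + b)`. -/
noncomputable def SOK (x : ℝ) (g h a b Y Z : ℕ) : ℝ :=
  ∑ u ∈ range (2 ^ a), ∑ v ∈ range (3 ^ b),
    if OK g h (2 ^ a * Y + u) (3 ^ b * Z + v) then x ^ (s 2 u) / x ^ (s 3 v) else 0

/-- The free energy. -/
noncomputable def H (x : ℝ) : ℝ :=
  Real.log (1 + x) / Real.log 2 + Real.log (1 + x⁻¹ + x⁻¹ ^ 2) / Real.log 3 - 1

/-- `e ξ = exp (2 π i ξ)`. -/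
noncomputable def e (ξ : ℝ) : ℂ := Complex.exp (((2 * Real.pi * ξ : ℝ) : ℂ) * Complex.I)

/-- Normalised factor of the binary Fourier product. -/
noncomputable def phi2 (p ξ : ℝ) : ℝ := ‖(1 : ℂ) + (p : ℂ) * e ξ‖ / (1 + p)

/-- Normalised factor of the ternary Fourier product. -/
noncomputable def phi3 (q ξ : ℝ) : ℝ :=
  ‖(1 : ℂ) + ((q⁻¹ : ℝ) : ℂ) * e ξ + (((q⁻¹ : ℝ) : ℂ) * e ξ) ^ 2‖ / (1 + q⁻¹ + q⁻¹ ^ 2)

/-- The binary Fourier product with digit parameters `p 0, ..., p (m-1)`. -/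
noncomputable def aa (p : ℕ → ℝ) (m : ℕ) (ξ : ℝ) : ℝ :=
  ∏ k ∈ range m, phi2 (p k) (2 ^ k * ξ)

/-- The ternary Fourier product with digit parameters `q 0, ..., q (w-1)`. -/
noncomputable def bb (q : ℕ → ℝ) (w : ℕ) (ξ : ℝ) : ℝ :=
  ∏ l ∈ range w, phi3 (q l) (3 ^ l * ξ)

/-- The functional which controls the maximal window mass. -/
noncomputable def EE (p q : ℕ → ℝ) (m w : ℕ) (θ : ℝ) : ℝ :=
  2 ^ m * ∫ ξ in (-(1 / 2 : ℝ))..(1 / 2), aa p m ξ * bb q w (θ * ξ)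

/-- The functional which controls the difference between the fine and the coarse scale. -/
noncomputable def TT (p q : ℕ → ℝ) (m w j L : ℕ) (θ : ℝ) : ℝ :=
  2 ^ m * ∫ ξ in (-(L / 2 : ℝ))..(L / 2),
    min 1 (4 * 2 ^ m / 2 ^ j * |ξ|) * (aa p m ξ * bb q w (θ * ξ))

/-- The digit parameters are all in `[1, 13/10]`. -/
def Par (p : ℕ → ℝ) : Prop := ∀ k, 1 ≤ p k ∧ p k ≤ 13 / 10

/-- Binary digit weights (they sum to `1` over `u < 2 ^ m`). -/
noncomputable def W2 (p : ℕ → ℝ) (m u : ℕ) : ℝ :=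
  ∏ k ∈ range m, p k ^ (u / 2 ^ k % 2) / (1 + p k)

/-- Ternary digit weights (they sum to `1` over `v < 3 ^ w`). -/
noncomputable def W3 (q : ℕ → ℝ) (w v : ℕ) : ℝ :=
  ∏ l ∈ range w, (q l)⁻¹ ^ (v / 3 ^ l % 3) / (1 + (q l)⁻¹ + (q l)⁻¹ ^ 2)

/-- The parameter `x` at the positions below `n - j`, and `1` at the `j` top positions. -/
noncomputable def mix (x : ℝ) (n j : ℕ) : ℕ → ℝ := fun k => if k < n - j then x else 1

/-- The Fejér kernel of width `w`. -/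
noncomputable def KK (w y : ℝ) : ℝ :=
  ∫ ξ in (-w)..w, (1 - |ξ| / w) * Real.cos (2 * Real.pi * ξ * y)

end Pool.Agent.Helper47.EX
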