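import Pool.Agent.Helper47.EX.Defs
import Pool.Agent.Helper36.DC.Digits

/-!
# EX-10, part 1: change of weight and concentration
-/

set_option autoImplicit false

namespace Pool.Agent.Helper47.EX

open Pool.Agent.Helper36.DC Finset

/-- Abstract concentration: lower bound for the number of elements with small `|D|`. -/
theorem chernoff {ι : Type*} (P : Finset ι) (D : ι → ℝ) (l δ T A B : ℝ) (hδ : 0 < δ)
    (hT : 0 ≤ T) (hl : 0 ≤ l) (hl2 : l ≤ Real.log 2)
    (hA : A ≤ ∑ p ∈ P, Real.exp (l * D p))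
    (hB1 : ∑ p ∈ P, Real.exp ((l + δ) * D p) ≤ B)
    (hB2 : ∑ p ∈ P, Real.exp ((l - δ) * D p) ≤ B)
    (hAB : 2 * (Real.exp (-(δ * T)) * B) ≤ A / 2) :
    A / 2 ≤ (2 : ℝ) ^ T * ((P.filter (fun p => |D p| ≤ T)).card : ℝ) := by
  classical
  have hsplit : ∑ p ∈ P, Real.exp (l * D p) ≤
      ∑ p ∈ P.filter (fun p => |D p| ≤ T), Real.exp (l * D p)
        + (∑ p ∈ P, Real.exp (-(δ * T)) * Real.exp ((l + δ) * D p)
          + ∑ p ∈ P, Real.exp (-(δ * T)) * Real.exp ((l - δ) * D p)) := by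
    rw [← Finset.sum_filter_add_sum_filter_not P (fun p => |D p| ≤ T)]
    have h1 : ∑ p ∈ P.filter (fun p => ¬ |D p| ≤ T), Real.exp (l * D p) ≤
        ∑ p ∈ P.filter (fun p => ¬ |D p| ≤ T),
          (Real.exp (-(δ * T)) * Real.exp ((l + δ) * D p)
            + Real.exp (-(δ * T)) * Real.exp ((l - δ) * D p)) := by
      apply Finset.sum_le_sum
      intro p hp
      have hp2 : T < |D p| := not_le.1 (Finset.mem_filter.1 hp).2
      rcases lt_abs.1 hp2 with h | h
      · have : Real.exp (l * D p) ≤ Real.exp (-(δ * T)) * Real.exp ((l + δ) * D p) := by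
          rw [← Real.exp_add]
          apply Real.exp_le_exp.2
          nlinarith
        have h0 : 0 ≤ Real.exp (-(δ * T)) * Real.exp ((l - δ) * D p) := by positivity
        linarith
      · have : Real.exp (l * D p) ≤ Real.exp (-(δ * T)) * Real.exp ((l - δ) * D p) := by
          rw [← Real.exp_add]
          apply Real.exp_le_exp.2
          nlinarith
        have h0 : 0 ≤ Real.exp (-(δ * T)) * Real.exp ((l + δ) * D p) := by positivity
        linarith
    have h2 : ∑ p ∈ P.filter (fun p => ¬ |D p| ≤ T),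
          (Real.exp (-(δ * T)) * Real.exp ((l + δ) * D p)
            + Real.exp (-(δ * T)) * Real.exp ((l - δ) * D p)) ≤
        ∑ p ∈ P, (Real.exp (-(δ * T)) * Real.exp ((l + δ) * D p)
            + Real.exp (-(δ * T)) * Real.exp ((l - δ) * D p)) := by
      apply Finset.sum_le_sum_of_subset_of_nonneg (Finset.filter_subset _ _)
      intros
      positivity
    have h3 : ∑ p ∈ P, (Real.exp (-(δ * T)) * Real.exp ((l + δ) * D p)
            + Real.exp (-(δ * T)) * Real.exp ((l - δ) * D p)) =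
        ∑ p ∈ P, Real.exp (-(δ * T)) * Real.exp ((l + δ) * D p)
            + ∑ p ∈ P, Real.exp (-(δ * T)) * Real.exp ((l - δ) * D p) := Finset.sum_add_distrib
    linarith [h1.trans h2]
  rw [← Finset.mul_sum, ← Finset.mul_sum] at hsplit
  have he : 0 < Real.exp (-(δ * T)) := Real.exp_pos _
  have h3 := mul_le_mul_of_nonneg_left hB1 he.le
  have h4 := mul_le_mul_of_nonneg_left hB2 he.le
  have h5 : ∑ p ∈ P.filter (fun p => |D p| ≤ T), Real.exp (l * D p) ≤
      ∑ p ∈ P.filter (fun p => |D p| ≤ T), (2 : ℝ) ^ T := by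
    apply Finset.sum_le_sum
    intro p hp
    have hp2 : |D p| ≤ T := (Finset.mem_filter.1 hp).2
    rw [Real.rpow_def_of_pos (by norm_num)]
    apply Real.exp_le_exp.2
    have h6 : D p ≤ T := (abs_le.1 hp2).2
    calc l * D p ≤ l * T := mul_le_mul_of_nonneg_left h6 hl
      _ ≤ Real.log 2 * T := mul_le_mul_of_nonneg_right hl2 hT
  rw [Finset.sum_const, nsmul_eq_mul] at h5
  nlinarith

theorem pow_div_eq_exp (x : ℝ) (hx : 0 < x) (a b : ℕ) :
    x ^ a / x ^ b = Real.exp (Real.log x * ((a : ℝ) - b)) := by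
  rw [mul_sub, Real.exp_sub, mul_comm, Real.exp_nat_mul, Real.exp_log hx, mul_comm,
    Real.exp_nat_mul, Real.exp_log hx]

theorem OK_Ov {g h Y Z : ℕ} (hO : OK g h Y Z) : Ov g h Y Z := by
  obtain ⟨h1, h2⟩ := hO
  have : 0 < 2 ^ g := by positivity
  constructor
  · omega
  · omega

theorem SOK_le_SOv (x : ℝ) (hx : 0 < x) (g h a b Y Z : ℕ) :
    SOK x g h a b Y Z ≤ SOv x g h a b Y Z := by
  unfold SOK SOv
  apply Finset.sum_le_sum
  intro u _
  apply Finset.sum_le_sum
  intro v _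
  by_cases hO : OK g h (2 ^ a * Y + u) (3 ^ b * Z + v)
  · rw [if_pos hO, if_pos (OK_Ov hO)]
  · rw [if_neg hO]
    split_ifs
    · positivity
    · exact le_refl _

/-- The set of well overlapping sub-cells. -/
def PP (g h a b Y Z : ℕ) : Finset (ℕ × ℕ) :=
  (range (2 ^ a) ×ˢ range (3 ^ b)).filter (fun p => OK g h (2 ^ a * Y + p.1) (3 ^ b * Z + p.2))

theorem SOK_eq (x : ℝ) (hx : 0 < x) (g h a b Y Z : ℕ) :
    SOK x g h a b Y Z = ∑ p ∈ PP g h a b Y Z,
      Real.exp (Real.log x * ((s 2 p.1 : ℝ) - (s 3 p.2 : ℝ))) := by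
  unfold SOK PP
  rw [Finset.sum_filter, Finset.sum_product]
  apply Finset.sum_congr rfl
  intro u _
  apply Finset.sum_congr rfl
  intro v _
  rw [pow_div_eq_exp x hx]

end Pool.Agent.Helper47.EX
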