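import Pool.Agent.Helper47.EX.Main

/-!
# From the two-sided bounds to limits
-/

set_option autoImplicit false

namespace Pool.Agent.Helper47.EX

open Filter Topology

theorem tendsto_log_div (f : ℕ → ℝ) (η : ℝ)
    (h1 : ∀ ε : ℝ, 0 < ε → ∀ᶠ N : ℕ in atTop, (N : ℝ) ^ (η - ε) ≤ f N)
    (h2 : ∀ ε : ℝ, 0 < ε → ∀ᶠ N : ℕ in atTop, f N ≤ (N : ℝ) ^ (η + ε)) :
    Tendsto (fun N : ℕ => Real.log (f N) / Real.log N) atTop (𝓝 η) := by
  rw [Metric.tendsto_nhds]
  intro ε hε
  filter_upwards [h1 (ε / 2) (by positivity), h2 (ε / 2) (by positivity),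
    eventually_ge_atTop 2] with N hN1 hN2 hN3
  have hN0 : (0 : ℝ) < N := by exact_mod_cast (by omega : 0 < N)
  have hN1' : (1 : ℝ) < N := by exact_mod_cast (by omega : 1 < N)
  have hlog : 0 < Real.log N := Real.log_pos hN1'
  have hf : 0 < f N := lt_of_lt_of_le (by positivity) hN1
  have h3 : (η - ε / 2) * Real.log N ≤ Real.log (f N) := by
    rw [← Real.log_rpow hN0]
    exact Real.log_le_log (by positivity) hN1
  have h4 : Real.log (f N) ≤ (η + ε / 2) * Real.log N := by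
    rw [← Real.log_rpow hN0]
    exact Real.log_le_log hf hN2
  rw [Real.dist_eq, abs_lt]
  constructor
  · have : η - ε / 2 ≤ Real.log (f N) / Real.log N := by
      rw [le_div_iff₀ hlog]
      exact h3
    linarith
  · have : Real.log (f N) / Real.log N ≤ η + ε / 2 := by
      rw [div_le_iff₀ hlog]
      exact h4
    linarith

/-- `K * N ^ a ≤ N ^ (a + ε)` for large `N`. -/
theorem const_mul_rpow_le (K a ε : ℝ) (hε : 0 < ε) :
    ∀ᶠ N : ℕ in atTop, K * (N : ℝ) ^ a ≤ (N : ℝ) ^ (a + ε) := by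
  have h : Tendsto (fun N : ℕ => (N : ℝ) ^ ε) atTop atTop :=
    (tendsto_rpow_atTop hε).comp tendsto_natCast_atTop_atTop
  filter_upwards [h.eventually_ge_atTop K, eventually_ge_atTop 1] with N h1 h2
  have hN0 : (0 : ℝ) < N := by exact_mod_cast (by omega : 0 < N)
  rw [Real.rpow_add hN0, mul_comm]
  exact mul_le_mul_of_nonneg_left h1 (by positivity)

theorem eq_of_isEquivalent (f : ℕ → ℝ) (hf : ∀ N, 0 ≤ f N) (η : ℝ)
    (h1 : ∀ ε : ℝ, 0 < ε → ∀ᶠ N : ℕ in atTop, (N : ℝ) ^ (η - ε) ≤ f N)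
    (h2 : ∀ ε : ℝ, 0 < ε → ∀ᶠ N : ℕ in atTop, f N ≤ (N : ℝ) ^ (η + ε))
    (c η' : ℝ) (h : Asymptotics.IsEquivalent atTop f (fun N : ℕ => c * (N : ℝ) ^ η')) :
    0 < c ∧ η' = η := by
  have hc : c ≠ 0 := by
    rintro rfl
    simp only [zero_mul] at h
    have h3 := (Asymptotics.isEquivalent_zero_iff_eventually_zero.1 h)
    obtain ⟨N, hN1, hN2, hN3⟩ := ((h1 1 one_pos).and (h3.and (eventually_ge_atTop 1))).exists
    have hN0 : (0 : ℝ) < N := by exact_mod_cast (by omega : 0 < N)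
    have : 0 < (N : ℝ) ^ (η - 1) := by positivity
    have h4 : f N = 0 := hN2
    linarith
  have hne : ∀ᶠ N : ℕ in atTop, c * (N : ℝ) ^ η' ≠ 0 := by
    filter_upwards [eventually_ge_atTop 1] with N hN
    have hN0 : (0 : ℝ) < N := by exact_mod_cast (by omega : 0 < N)
    have : 0 < (N : ℝ) ^ η' := by positivity
    exact mul_ne_zero hc this.ne'
  have hlim : Tendsto (f / fun N : ℕ => c * (N : ℝ) ^ η') atTop (𝓝 1) :=
    (Asymptotics.isEquivalent_iff_tendsto_one hne).1 h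
  have hev : ∀ᶠ N : ℕ in atTop, 1 / 2 < (f / fun N : ℕ => c * (N : ℝ) ^ η') N ∧
      (f / fun N : ℕ => c * (N : ℝ) ^ η') N < 2 :=
    (hlim.eventually (lt_mem_nhds (by norm_num))).and
      (hlim.eventually (gt_mem_nhds (by norm_num)))
  have hcpos : 0 < c := by
    obtain ⟨N, ⟨hN1, hN2⟩, hN3⟩ := (hev.and (eventually_ge_atTop 1)).exists
    have hN0 : (0 : ℝ) < N := by exact_mod_cast (by omega : 0 < N)
    have h5 : 0 < (N : ℝ) ^ η' := by positivity
    by_contra hcon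
    have hneg : c < 0 := lt_of_le_of_ne (not_lt.1 hcon) hc
    have h6 : (f / fun N : ℕ => c * (N : ℝ) ^ η') N ≤ 0 := by
      simp only [Pi.div_apply]
      exact div_nonpos_of_nonneg_of_nonpos (hf N) (mul_nonpos_of_nonpos_of_nonneg hneg.le h5.le)
    linarith
  refine ⟨hcpos, ?_⟩
  have hlim1 := tendsto_log_div f η h1 h2
  have hlim2 := tendsto_log_div f η' (by
    intro ε hε
    have h7 := const_mul_rpow_le (2 / c) (η' - ε) ε hε
    filter_upwards [hev, h7, eventually_ge_atTop 1] with N hN1 hN2 hN3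
    have hN0 : (0 : ℝ) < N := by exact_mod_cast (by omega : 0 < N)
    have h5 : 0 < (N : ℝ) ^ η' := by positivity
    have h8 : 1 / 2 < f N / (c * (N : ℝ) ^ η') := hN1.1
    rw [lt_div_iff₀ (by positivity)] at h8
    rw [sub_add_cancel, div_mul_eq_mul_div, div_le_iff₀ hcpos] at hN2
    linarith) (by
    intro ε hε
    have h7 := const_mul_rpow_le (2 * c) η' ε hε
    filter_upwards [hev, h7, eventually_ge_atTop 1] with N hN1 hN2 hN3
    have hN0 : (0 : ℝ) < N := by exact_mod_cast (by omega : 0 < N)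
    have h5 : 0 < (N : ℝ) ^ η' := by positivity
    have h8 : f N / (c * (N : ℝ) ^ η') < 2 := hN1.2
    rw [div_lt_iff₀ (by positivity)] at h8
    linarith)
  exact tendsto_nhds_unique hlim2 hlim1

end Pool.Agent.Helper47.EX
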