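import Pool.Agent.Helper25.EX.HFacts

/-!
# Numerical bounds for the minimum of `H`
-/

set_option autoImplicit false
set_option exponentiation.threshold 3000

namespace Pool.Agent.Helper47.EX

open Pool.Agent.Helper36.DC Pool.Agent.Helper25.EX Real

theorem H_12168_lower : 0.981505 < H (12168 / 10000) := by
  have h1 : ((263 : ℕ) : ℝ) / (229 : ℕ) < log (1 + (12168 / 10000 : ℝ)) / log 2 :=
    gt_of_pow (by norm_num) (by norm_num) (by norm_num)
  have h2 : ((464 : ℕ) : ℝ) / (557 : ℕ) <
      log (1 + (12168 / 10000 : ℝ)⁻¹ + (12168 / 10000 : ℝ)⁻¹ ^ 2) / log 3 :=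
    gt_of_pow (by norm_num) (by norm_num) (by norm_num)
  unfold H
  norm_num at h1 h2 ⊢
  linarith

theorem H_12168_upper : H (12168 / 10000) < 0.9816 := by
  have h1 : log (1 + (12168 / 10000 : ℝ)) / log 2 < ((116 : ℕ) : ℝ) / (101 : ℕ) :=
    lt_of_pow (by norm_num) (by norm_num) (by norm_num) (by norm_num)
  have h2 : log (1 + (12168 / 10000 : ℝ)⁻¹ + (12168 / 10000 : ℝ)⁻¹ ^ 2) / log 3 <
      ((469 : ℕ) : ℝ) / (563 : ℕ) :=
    lt_of_pow (by norm_num) (by norm_num) (by norm_num) (by norm_num)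
  unfold H
  norm_num at h1 h2 ⊢
  linarith

theorem DH_12168 : -0.00006 ≤ DH (12168 / 10000) ∧ DH (12168 / 10000) ≤ 0 := by
  have h2 := log2_pos
  have h3 := log3_pos
  have a1 : log (3 : ℝ) / log 2 < (485 : ℕ) / (306 : ℕ) :=
    lt_of_pow (by norm_num) (by norm_num) (by norm_num) (by norm_num)
  have a2 : ((569 : ℕ) : ℝ) / (359 : ℕ) < log (3 : ℝ) / log 2 :=
    gt_of_pow (by norm_num) (by norm_num) (by norm_num)
  rw [div_lt_div_iff₀ h2 (by norm_num)] at a1
  rw [div_lt_div_iff₀ (by norm_num) h2] at a2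
  have l3 : 1 ≤ log (3 : ℝ) := by
    rw [le_log_iff_exp_le (by norm_num)]
    exact (exp_one_lt_d9.trans (by norm_num)).le
  push_cast at a1 a2
  have e : DH (12168 / 10000) =
      (1521 / 2771 * log 3 - 5026250 / 5777191 * log 2) / (log 2 * log 3) := by
    unfold DH
    field_simp
    ring
  rw [e]
  constructor
  · rw [le_div_iff₀ (by positivity)]
    have h5 : log 2 ≤ log 2 * log 3 := by nlinarith
    nlinarith
  · apply div_nonpos_of_nonpos_of_nonneg _ (by positivity)
    nlinarith

theorem H_min_num (x0 : ℝ) (h1 : 1 < x0) (h2 : x0 < 13 / 10) (hmin : ∀ x : ℝ, 0 < x → H x0 ≤ H x) :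
    0.9815 < H x0 ∧ H x0 < 0.9816 := by
  constructor
  · have t := tangent (show (0 : ℝ) < 12168 / 10000 by norm_num) (by linarith : 0 < x0)
    have hd := DH_12168
    have hl : log x0 - log (12168 / 10000 : ℝ) ≤ 0.07 := by
      rw [← log_div (by linarith) (by norm_num)]
      have h3 : x0 / (12168 / 10000) ≤ 1.07 := by
        rw [div_le_iff₀ (by norm_num)]
        norm_num
        linarith
      have h4 : 0 < x0 / (12168 / 10000) := by positivity
      have := log_le_sub_one_of_pos h4
      norm_num at this h3 ⊢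
      linarith
    have hH := H_12168_lower
    norm_num at hl hd hH ⊢
    rcases le_total (log x0 - log (1521 / 1250)) 0 with h | h
    · nlinarith [hd.1, hd.2]
    · nlinarith [hd.1, hd.2]
  · exact lt_of_le_of_lt (hmin _ (by norm_num)) H_12168_upper

end Pool.Agent.Helper47.EX
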