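import Pool.Agent.Helper9.EX.UpperMain
import Pool.Agent.Helper41.EX.LowerMain
import Pool.Agent.Helper36.EX.Local
import Pool.Agent.Helper25.EX.HFacts

/-!
# The main inputs of the exact exponent theorem
-/

set_option autoImplicit false

namespace Pool.Agent.Helper47.EX.Inputs

open Pool.Agent.Helper36.DC Pool.Agent.Helper47.EX Finset

theorem upper_main (x : ℝ) (hx : 1 ≤ x) (hx1 : x ≤ 13 / 10) :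
    ∃ C : ℝ, 1 ≤ C ∧ ∀ m : ℕ, 1 ≤ m → ∃ n0 : ℕ, ∀ n : ℕ, n0 ≤ n → ∀ n1 : ℕ, 2 * n1 ≤ n →
      ∀ Y Z : ℕ,
        SOv x (n1 * m) (hh (n1 * m)) ((n - n1) * m) (hh (n * m) - hh (n1 * m)) Y Z
          ≤ C ^ n * (2 : ℝ) ^ ((((n - n1) * m : ℕ) : ℝ) * H x) :=
  Pool.Agent.Helper9.EX.upper_main_of Pool.Agent.Helper87.EX.equi
    Pool.Agent.Helper33.EX.EE_continuousOn Pool.Agent.Helper33.EX.EE_nonneg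
    Pool.Agent.Helper33.EX.avg_EE Pool.Agent.Helper59.EX.block_upper x hx hx1

theorem lower_main (x : ℝ) (hx : 1 ≤ x) (hx1 : x ≤ 13 / 10) (ε : ℝ) (hε : 0 < ε) :
    ∃ m0 : ℕ, ∀ m : ℕ, m0 ≤ m → ∃ n0 : ℕ, ∀ n : ℕ, n0 ≤ n → ∀ n1 : ℕ, n1 ≤ n →
      ∀ Y Z : ℕ, OK (n * m) (hh (n * m)) Y Z →
        (2 : ℝ) ^ ((((n - n1) * m : ℕ) : ℝ) * H x - ε * ((n * m : ℕ) : ℝ)) ≤
          SOK x (n1 * m) (hh (n1 * m)) ((n - n1) * m) (hh (n * m) - hh (n1 * m)) Y Z :=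
  Pool.Agent.Helper41.EX.lower_main x hx hx1 ε hε

theorem local_windows : ∃ c : ℝ, 0 < c ∧ ∃ g0 : ℕ, ∀ g : ℕ, g0 ≤ g → ∀ Y Z : ℕ,
    OK g (hh g) Y Z → ∀ t : ℤ, |(t : ℝ)| ≤ c * g →
      ∃ n : ℕ, n / 2 ^ g = Y ∧ n / 3 ^ hh g = Z ∧
        (s 2 (n % 2 ^ g) : ℤ) - (s 3 (n % 3 ^ hh g) : ℤ) = t :=
  Pool.Agent.Helper36.EX.local_windows

theorem H_min : ∃ x0 : ℝ, 1 < x0 ∧ x0 < 13 / 10 ∧ (∀ x : ℝ, 0 < x → H x0 ≤ H x) ∧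
    0.981 < H x0 ∧ H x0 < 0.982 ∧
    ∀ c : ℝ, 0 < c → ∃ δ : ℝ, 0 < δ ∧ δ < 1 ∧
      1 ≤ x0 * Real.exp (-δ) ∧ x0 * Real.exp δ ≤ 13 / 10 ∧
      H (x0 * Real.exp δ) ≤ H x0 + c * δ ∧ H (x0 * Real.exp (-δ)) ≤ H x0 + c * δ :=
  Pool.Agent.Helper25.EX.H_min

end Pool.Agent.Helper47.EX.Inputs
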