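import Pool.Agent.Helper47.EX.Inputs
import Pool.Agent.Helper47.EX.Chernoff

/-!
# EX-10, part 2: the upper bound for the number of `n < N` with `d n = k`
-/

set_option autoImplicit false

namespace Pool.Agent.Helper47.EX

open Pool.Agent.Helper36.DC Finset

theorem hh_zero : hh 0 = 0 := by
  unfold hh
  simp

theorem two_pow_lt (g : ℕ) : 2 ^ g < 3 ^ (hh g + 1) := by
  unfold hh
  exact Nat.lt_pow_succ_log_self (by norm_num) _

theorem three_pow_le (g : ℕ) : 3 ^ hh g ≤ 2 ^ g := by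
  unfold hh
  exact Nat.pow_log_le_self 3 (by positivity)

/-- The partition function below `2 ^ G` is at most the sum of three cell sums. -/
theorem partition_le (x : ℝ) (hx : 1 ≤ x) (G : ℕ) :
    ∑ n ∈ range (2 ^ G), x ^ (s 2 n) / x ^ (s 3 n) ≤
      ∑ Z ∈ range 3, SOv x 0 0 G (hh G) 0 Z := by
  have hx0 : 0 < x := by linarith
  unfold SOv
  rw [Finset.sum_comm]
  apply Finset.sum_le_sum
  intro n hn
  have hn' : n < 2 ^ G := Finset.mem_range.1 hn
  set b := hh G with hb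
  have hb1 : 2 ^ G < 3 ^ (b + 1) := two_pow_lt G
  have hb0 : 0 < 3 ^ b := by positivity
  have hZ : n / 3 ^ b < 3 := by
    rw [Nat.div_lt_iff_lt_mul hb0]
    calc n < 2 ^ G := hn'
      _ < 3 ^ (b + 1) := hb1
      _ = 3 * 3 ^ b := by ring
  have hv : n % 3 ^ b < 3 ^ b := Nat.mod_lt _ hb0
  have hdec : 3 ^ b * (n / 3 ^ b) + n % 3 ^ b = n := Nat.div_add_mod n (3 ^ b)
  have hs : s 3 n = s 3 (n / 3 ^ b) + s 3 (n % 3 ^ b) := by
    conv_lhs => rw [← hdec]
    exact s_concat 3 b _ _ (by norm_num) hv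
  have hOv : Ov 0 0 (2 ^ G * 0 + n) (3 ^ b * (n / 3 ^ b) + n % 3 ^ b) := by
    rw [hdec]
    unfold Ov
    simp
  have hnn : ∀ Z ∈ range 3, 0 ≤ ∑ v ∈ range (3 ^ b),
      if Ov 0 0 (2 ^ G * 0 + n) (3 ^ b * Z + v) then x ^ (s 2 n) / x ^ (s 3 v) else 0 := by
    intro Z _
    apply Finset.sum_nonneg
    intro v _
    split_ifs
    · positivity
    · exact le_refl _
  refine le_trans ?_ (Finset.single_le_sum hnn (Finset.mem_range.2 hZ))
  have hnn2 : ∀ v ∈ range (3 ^ b), 0 ≤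
      if Ov 0 0 (2 ^ G * 0 + n) (3 ^ b * (n / 3 ^ b) + v) then
        x ^ (s 2 n) / x ^ (s 3 v) else 0 := by
    intro v _
    split_ifs
    · positivity
    · exact le_refl _
  refine le_trans ?_ (Finset.single_le_sum hnn2 (Finset.mem_range.2 hv))
  rw [if_pos hOv, hs]
  apply div_le_div_of_nonneg_left (by positivity) (by positivity)
  exact pow_le_pow_right₀ hx (Nat.le_add_left _ _)

theorem count_mul_le (x : ℝ) (hx : 1 ≤ x) (k : ℤ) (M : ℕ) :
    ((((range M).filter (fun n => d n = k)).card : ℕ) : ℝ) * x ^ k ≤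
      ∑ n ∈ range M, x ^ (s 2 n) / x ^ (s 3 n) := by
  have hx0 : 0 < x := by linarith
  calc ((((range M).filter (fun n => d n = k)).card : ℕ) : ℝ) * x ^ k
      = ∑ n ∈ (range M).filter (fun n => d n = k), x ^ k := by
        rw [Finset.sum_const, nsmul_eq_mul]
    _ = ∑ n ∈ (range M).filter (fun n => d n = k), x ^ (s 2 n) / x ^ (s 3 n) := by
        apply Finset.sum_congr rfl
        intro n hn
        have h := (Finset.mem_filter.1 hn).2
        rw [← h]
        unfold d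
        rw [zpow_sub₀ hx0.ne', zpow_natCast, zpow_natCast]
    _ ≤ ∑ n ∈ range M, x ^ (s 2 n) / x ^ (s 3 n) := by
        apply Finset.sum_le_sum_of_subset_of_nonneg (Finset.filter_subset _ _)
        intros
        positivity

theorem upper_count (x : ℝ) (hx : 1 ≤ x) (hx1 : x ≤ 13 / 10) (hH : 0 ≤ H x) (k : ℤ) (ε : ℝ)
    (hε : 0 < ε) : ∀ᶠ N : ℕ in Filter.atTop,
      ((((range N).filter (fun n => d n = k)).card : ℕ) : ℝ) ≤ (N : ℝ) ^ (H x + ε) := by
  have hx0 : 0 < x := by linarith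
  obtain ⟨C, hC1, hC⟩ := Inputs.upper_main x hx hx1
  -- choose m with C ≤ 2 ^ (m ε / 4)
  obtain ⟨m, hm⟩ := exists_nat_ge (Real.logb 2 C * 4 / ε + 1)
  have hlogC : 0 ≤ Real.logb 2 C := Real.logb_nonneg (by norm_num) hC1
  have hm1 : 1 ≤ m := by
    have h0 : 0 ≤ Real.logb 2 C * 4 / ε := by positivity
    have : (1 : ℝ) ≤ m := by linarith
    exact_mod_cast this
  have hCm : C ≤ (2 : ℝ) ^ ((m : ℝ) * (ε / 4)) := by
    rw [← Real.logb_le_iff_le_rpow (by norm_num) (by linarith)]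
    have h1 : Real.logb 2 C * 4 / ε ≤ m := by linarith
    rw [div_le_iff₀ hε] at h1
    linarith
  obtain ⟨n0, hn0⟩ := hC m hm1
  -- the constant
  set K : ℝ := x ^ (-k) * 3 * (2 : ℝ) ^ ((m : ℝ) * (H x + ε / 4)) with hK
  have hK0 : 0 < K := by positivity
  have hev1 : ∀ᶠ N : ℕ in Filter.atTop, (2 ^ m) ^ n0 ≤ N := Filter.eventually_ge_atTop _
  have hev2 : ∀ᶠ N : ℕ in Filter.atTop, 1 ≤ N := Filter.eventually_ge_atTop _
  have hev3 : ∀ᶠ N : ℕ in Filter.atTop, K ≤ (N : ℝ) ^ (ε / 2) := by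
    have : Filter.Tendsto (fun N : ℕ => (N : ℝ) ^ (ε / 2)) Filter.atTop Filter.atTop :=
      (tendsto_rpow_atTop (by positivity)).comp tendsto_natCast_atTop_atTop
    exact this.eventually_ge_atTop K
  filter_upwards [hev1, hev2, hev3] with N h1 h2 h3
  have h2m : 1 < 2 ^ m := Nat.one_lt_two_pow (by omega)
  set n := Nat.log (2 ^ m) N + 1 with hn
  have hNlt : N < (2 ^ m) ^ n := Nat.lt_pow_succ_log_self h2m N
  have hNge : (2 ^ m) ^ (n - 1) ≤ N := by
    rw [hn, Nat.add_sub_cancel]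
    exact Nat.pow_log_le_self _ (by omega)
  have hnn0 : n0 ≤ n := by
    have : n0 ≤ Nat.log (2 ^ m) N := by
      exact Nat.le_log_of_pow_le h2m h1
    omega
  have hS := fun Z => hn0 n hnn0 0 (by omega) 0 Z
  simp only [Nat.zero_mul, hh_zero, Nat.sub_zero] at hS
  have hcard : ((((range N).filter (fun n => d n = k)).card : ℕ) : ℝ) ≤
      ((((range (2 ^ (n * m))).filter (fun n => d n = k)).card : ℕ) : ℝ) := by
    have : ((range N).filter (fun n => d n = k)).card ≤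
        ((range (2 ^ (n * m))).filter (fun n => d n = k)).card := by
      apply Finset.card_le_card
      apply Finset.filter_subset_filter
      intro i hi
      rw [Finset.mem_range] at hi ⊢
      have : (2 ^ m) ^ n = 2 ^ (n * m) := by rw [← pow_mul, mul_comm]
      omega
    exact_mod_cast this
  have hle : ((((range (2 ^ (n * m))).filter (fun n => d n = k)).card : ℕ) : ℝ) * x ^ k ≤
      3 * (C ^ n * (2 : ℝ) ^ (((n * m : ℕ) : ℝ) * H x)) := by
    refine le_trans (count_mul_le x hx k _) (le_trans (partition_le x hx _) ?_)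
    calc ∑ Z ∈ range 3, SOv x 0 0 (n * m) (hh (n * m)) 0 Z
        ≤ ∑ Z ∈ range 3, C ^ n * (2 : ℝ) ^ (((n * m : ℕ) : ℝ) * H x) :=
          Finset.sum_le_sum (fun Z _ => hS Z)
      _ = 3 * (C ^ n * (2 : ℝ) ^ (((n * m : ℕ) : ℝ) * H x)) := by
          rw [Finset.sum_const, Finset.card_range, nsmul_eq_mul]
          norm_num
  have hxk : 0 < x ^ k := zpow_pos hx0 k
  have hle2 : ((((range N).filter (fun n => d n = k)).card : ℕ) : ℝ) ≤
      x ^ (-k) * (3 * (C ^ n * (2 : ℝ) ^ (((n * m : ℕ) : ℝ) * H x))) := by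
    rw [zpow_neg, inv_mul_eq_div, le_div_iff₀ hxk]
    exact le_trans (mul_le_mul_of_nonneg_right hcard hxk.le) hle
  have hCn : C ^ n ≤ (2 : ℝ) ^ (((n * m : ℕ) : ℝ) * (ε / 4)) := by
    calc C ^ n ≤ ((2 : ℝ) ^ ((m : ℝ) * (ε / 4))) ^ n := pow_le_pow_left₀ (by linarith) hCm n
      _ = (2 : ℝ) ^ (((n * m : ℕ) : ℝ) * (ε / 4)) := by
        rw [← Real.rpow_natCast, ← Real.rpow_mul (by norm_num)]
        congr 1
        push_cast
        ring
  have hN0 : (0 : ℝ) < N := by exact_mod_cast (by omega : 0 < N)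
  have h2nm : (2 : ℝ) ^ ((n * m : ℕ) : ℝ) ≤ (2 : ℝ) ^ (m : ℝ) * N := by
    have h4 : 2 ^ (n * m) ≤ 2 ^ m * N := by
      have h5 : (2 ^ m) ^ n = 2 ^ m * (2 ^ m) ^ (n - 1) := by
        rw [← pow_succ', Nat.sub_add_cancel (by omega)]
      calc 2 ^ (n * m) = (2 ^ m) ^ n := by rw [← pow_mul, mul_comm]
        _ = 2 ^ m * (2 ^ m) ^ (n - 1) := h5
        _ ≤ 2 ^ m * N := Nat.mul_le_mul_left _ hNge
    rw [Real.rpow_natCast, Real.rpow_natCast]
    exact_mod_cast h4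
  have hfin : (2 : ℝ) ^ (((n * m : ℕ) : ℝ) * (H x + ε / 4)) ≤
      (2 : ℝ) ^ ((m : ℝ) * (H x + ε / 4)) * (N : ℝ) ^ (H x + ε / 4) := by
    rw [Real.rpow_mul (by norm_num), Real.rpow_mul (by norm_num),
      ← Real.mul_rpow (by positivity) (by positivity)]
    exact Real.rpow_le_rpow (by positivity) h2nm (by positivity)
  calc ((((range N).filter (fun n => d n = k)).card : ℕ) : ℝ)
      ≤ x ^ (-k) * (3 * (C ^ n * (2 : ℝ) ^ (((n * m : ℕ) : ℝ) * H x))) := hle2
    _ ≤ x ^ (-k) * (3 * ((2 : ℝ) ^ (((n * m : ℕ) : ℝ) * (ε / 4)) *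
          (2 : ℝ) ^ (((n * m : ℕ) : ℝ) * H x))) := by
        have : 0 < x ^ (-k) := zpow_pos hx0 _
        gcongr
    _ = x ^ (-k) * 3 * (2 : ℝ) ^ (((n * m : ℕ) : ℝ) * (H x + ε / 4)) := by
        rw [← Real.rpow_add (by norm_num)]
        ring_nf
    _ ≤ x ^ (-k) * 3 * ((2 : ℝ) ^ ((m : ℝ) * (H x + ε / 4)) * (N : ℝ) ^ (H x + ε / 4)) := by
        have : 0 < x ^ (-k) := zpow_pos hx0 _
        gcongr
    _ = K * (N : ℝ) ^ (H x + ε / 4) := by rw [hK]; ring
    _ ≤ (N : ℝ) ^ (ε / 2) * (N : ℝ) ^ (H x + ε / 4) := by gcongr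
    _ = (N : ℝ) ^ (H x + 3 * ε / 4) := by
        rw [← Real.rpow_add hN0]
        ring_nf
    _ ≤ (N : ℝ) ^ (H x + ε) := by
        apply Real.rpow_le_rpow_of_exponent_le (by exact_mod_cast h2)
        linarith

end Pool.Agent.Helper47.EX
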