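import Pool.Agent.Helper47.EX.LowerPairs
import Pool.Agent.Helper47.EX.UpperCount

/-!
# EX-10, part 4: the lower bound for the number of `n` in `[N, (1+δ)N)` with `d n = k`
-/

set_option autoImplicit false

namespace Pool.Agent.Helper47.EX

open Pool.Agent.Helper36.DC Finset

theorem cell_d (g h a b Y Z u v n : ℕ) (hu : u < 2 ^ a) (hv : v < 3 ^ b)
    (h2 : n / 2 ^ g = 2 ^ a * Y + u) (h3 : n / 3 ^ h = 3 ^ b * Z + v) :
    d n = ((s 2 Y : ℤ) - s 3 Z) + ((s 2 u : ℤ) - s 3 v)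
      + ((s 2 (n % 2 ^ g) : ℤ) - s 3 (n % 3 ^ h)) := by
  have e2 : s 2 n = s 2 Y + s 2 u + s 2 (n % 2 ^ g) := by
    have h1 : s 2 n = s 2 (n / 2 ^ g) + s 2 (n % 2 ^ g) := by
      conv_lhs => rw [← Nat.div_add_mod n (2 ^ g)]
      exact s_concat 2 g _ _ le_rfl (Nat.mod_lt _ (by positivity))
    rw [h1, h2, s_concat 2 a _ _ le_rfl hu]
  have e3 : s 3 n = s 3 Z + s 3 v + s 3 (n % 3 ^ h) := by
    have h1 : s 3 n = s 3 (n / 3 ^ h) + s 3 (n % 3 ^ h) := by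
      conv_lhs => rw [← Nat.div_add_mod n (3 ^ h)]
      exact s_concat 3 h _ _ (by norm_num) (Nat.mod_lt _ (by positivity))
    rw [h1, h3, s_concat 3 b _ _ (by norm_num) hv]
  unfold d
  rw [e2, e3]
  push_cast
  ring

theorem s_le_self (b n : ℕ) : s b n ≤ n := by
  unfold s
  exact Nat.digit_sum_le b n

/-- Every chosen pair gives an `n`. -/
theorem card_pairs_le (g h a b Y Z : ℕ) (k : ℤ) (T : ℝ)
    (hloc : ∀ p ∈ (PP g h a b Y Z).filter (fun p => |DD p| ≤ T),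
      ∃ n : ℕ, n / 2 ^ g = 2 ^ a * Y + p.1 ∧ n / 3 ^ h = 3 ^ b * Z + p.2 ∧
        (s 2 (n % 2 ^ g) : ℤ) - (s 3 (n % 3 ^ h) : ℤ) =
          k - ((s 2 Y : ℤ) - s 3 Z) - ((s 2 p.1 : ℤ) - s 3 p.2)) :
    ((PP g h a b Y Z).filter (fun p => |DD p| ≤ T)).card ≤
      ((Finset.Ico (2 ^ (g + a) * Y) (2 ^ (g + a) * (Y + 1))).filter (fun n => d n = k)).card := by
  classical
  choose! f hf1 hf2 hf3 using hloc
  apply Finset.card_le_card_of_injOn f
  · intro p hp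
    have hp' := hp
    rw [Finset.mem_coe] at hp
    have h1 := hf1 p hp
    have h2 := hf2 p hp
    have h3 := hf3 p hp
    have hpm : p.1 < 2 ^ a ∧ p.2 < 3 ^ b := by
      have := (Finset.mem_filter.1 hp).1
      unfold PP at this
      have := (Finset.mem_filter.1 this).1
      rw [Finset.mem_product, Finset.mem_range, Finset.mem_range] at this
      exact this
    rw [Finset.mem_coe, Finset.mem_filter, Finset.mem_Ico]
    refine ⟨⟨?_, ?_⟩, ?_⟩
    · calc 2 ^ (g + a) * Y = 2 ^ g * (2 ^ a * Y) := by ring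
        _ ≤ 2 ^ g * (2 ^ a * Y + p.1) := Nat.mul_le_mul_left _ (Nat.le_add_right _ _)
        _ = 2 ^ g * (f p / 2 ^ g) := by rw [h1]
        _ ≤ f p := Nat.mul_div_le _ _
    · calc f p < 2 ^ g * (f p / 2 ^ g + 1) := Nat.lt_mul_div_succ _ (by positivity)
        _ = 2 ^ g * (2 ^ a * Y + p.1 + 1) := by rw [h1]
        _ ≤ 2 ^ g * (2 ^ a * Y + 2 ^ a) := Nat.mul_le_mul_left _ (by omega)
        _ = 2 ^ (g + a) * (Y + 1) := by ring
    · rw [cell_d g h a b Y Z p.1 p.2 (f p) hpm.1 hpm.2 h1 h2, h3]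
      ring
  · intro p hp p' hp' heq
    rw [Finset.mem_coe] at hp hp'
    have h1 := hf1 p hp
    have h2 := hf2 p hp
    have h1' := hf1 p' hp'
    have h2' := hf2 p' hp'
    rw [← heq] at h1' h2'
    rw [h1] at h1'
    rw [h2] at h2'
    ext
    · omega
    · omega

theorem lower_count (x0 : ℝ) (hx0 : 1 < x0) (hx1 : x0 < 13 / 10)
    (hH0 : 0.981 < H x0) (hH1 : H x0 < 1)
    (hder : ∀ c : ℝ, 0 < c → ∃ δ : ℝ, 0 < δ ∧ δ < 1 ∧
      1 ≤ x0 * Real.exp (-δ) ∧ x0 * Real.exp δ ≤ 13 / 10 ∧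
      H (x0 * Real.exp δ) ≤ H x0 + c * δ ∧ H (x0 * Real.exp (-δ)) ≤ H x0 + c * δ)
    (k : ℤ) (δ0 : ℝ) (hδ0 : 0 < δ0) (ε : ℝ) (hε : 0 < ε) : ∀ᶠ N : ℕ in Filter.atTop,
      (N : ℝ) ^ (H x0 - ε) ≤
        ((((Finset.Ico N ⌈(1 + δ0) * N⌉₊).filter (fun n => d n = k)).card : ℕ) : ℝ) := by
  set ε' : ℝ := min ε (1 / 2) with hε'
  have hε'0 : 0 < ε' := by rw [hε']; positivity
  have hε'1 : ε' ≤ ε := min_le_left _ _
  have hε'2 : ε' ≤ 1 / 2 := min_le_right _ _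
  obtain ⟨c, hc, g0, hloc⟩ := Inputs.local_windows
  obtain ⟨R, hR⟩ := exists_nat_ge (8 / ε')
  have hR0 : (0 : ℝ) < R := lt_of_lt_of_le (by positivity) hR
  have hRn : 0 < R := by exact_mod_cast hR0
  have hR1 : 1 / (R : ℝ) ≤ ε' / 8 := by
    rw [div_le_iff₀ hε'0] at hR
    rw [div_le_iff₀ hR0]
    linarith
  have hR2 : 2 ≤ R := by
    have : (16 : ℝ) ≤ R := by
      refine le_trans ?_ hR
      rw [le_div_iff₀ hε'0]
      linarith
    have : 16 ≤ R := by exact_mod_cast this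
    omega
  set κ : ℝ := min (c / (4 * R)) (ε' / 8) with hκ
  have hκ0 : 0 < κ := by rw [hκ]; positivity
  have hκ1 : κ ≤ c / (4 * R) := min_le_left _ _
  have hκ2 : κ ≤ ε' / 8 := min_le_right _ _
  obtain ⟨m, hm1, n0, hn0⟩ := lower_pairs x0 hx0 hx1 hder κ hκ0
  -- the window
  obtain ⟨t, ht⟩ := exists_nat_ge (2 / δ0)
  have ht' : 2 ≤ δ0 * 2 ^ t := by
    have h1 : (t : ℝ) ≤ 2 ^ t := by exact_mod_cast (Nat.lt_two_pow_self).le
    have h2 : 2 / δ0 ≤ 2 ^ t := le_trans ht h1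
    rw [div_le_iff₀ hδ0] at h2
    linarith
  set K0 : ℝ := 4 * (2 ^ (m + t) + 1) + 2 with hK0
  -- threshold for n
  obtain ⟨n2, hn2⟩ := exists_nat_ge (((|(k : ℝ)| + K0 + c * m) * (4 * R) / c))
  obtain ⟨n3, hn3⟩ := exists_nat_ge (((m : ℝ) + t) * 8 / (5 * ε'))
  set nn : ℕ := max (max n0 n2) (max n3 (R * (g0 + 1))) with hnn
  have h2m : 1 < 2 ^ m := Nat.one_lt_two_pow (by omega)
  have hev1 : ∀ᶠ N : ℕ in Filter.atTop, (2 ^ m) ^ nn * 2 ^ t ≤ N := Filter.eventually_ge_atTop _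
  filter_upwards [hev1] with N hN
  have hNpos : 1 ≤ N := le_trans (Nat.one_le_iff_ne_zero.2 (by positivity)) hN
  set n : ℕ := Nat.log (2 ^ m) (N / 2 ^ t) with hn
  have hNt : (2 ^ m) ^ nn ≤ N / 2 ^ t := by
    rw [Nat.le_div_iff_mul_le (by positivity)]
    exact hN
  have hnnn : nn ≤ n := Nat.le_log_of_pow_le h2m hNt
  have hNt0 : N / 2 ^ t ≠ 0 := by
    have : 0 < (2 ^ m) ^ nn := by positivity
    omega
  have hlow : (2 ^ m) ^ n ≤ N / 2 ^ t := Nat.pow_log_le_self _ hNt0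
  have hupp : N / 2 ^ t < (2 ^ m) ^ (n + 1) := Nat.lt_pow_succ_log_self h2m _
  have hnm : (2 ^ m) ^ n = 2 ^ (n * m) := by rw [← pow_mul, mul_comm]
  have hA1 : 2 ^ (n * m) * 2 ^ t ≤ N := by
    rw [← hnm]
    exact (Nat.le_div_iff_mul_le (by positivity)).1 hlow
  have hA2 : N < 2 ^ (n * m + m + t) := by
    have h1 : N < (2 ^ m) ^ (n + 1) * 2 ^ t := (Nat.div_lt_iff_lt_mul (by positivity)).1 hupp
    have h2 : (2 ^ m) ^ (n + 1) * 2 ^ t = 2 ^ (n * m + m + t) := by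
      rw [← pow_mul, ← pow_add]
      congr 1
      ring
    omega
  have hna : n0 ≤ n := le_trans (le_trans (le_max_left _ _) (le_max_left _ _)) hnnn
  have hnb : n2 ≤ n := le_trans (le_trans (le_max_right _ _) (le_max_left _ _)) hnnn
  have hnc : n3 ≤ n := le_trans (le_trans (le_max_left _ _) (le_max_right _ _)) hnnn
  have hnd : R * (g0 + 1) ≤ n := le_trans (le_trans (le_max_right _ _) (le_max_right _ _)) hnnn
  set n1 : ℕ := n / R with hn1
  have hn1R : 2 * n1 ≤ n := by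
    have h1 : n1 * R ≤ n := Nat.div_mul_le_self n R
    nlinarith
  have hn1g : g0 + 1 ≤ n1 := by
    rw [hn1, Nat.le_div_iff_mul_le hRn, mul_comm]
    exact hnd
  -- the cell
  set G : ℕ := n * m with hG
  set Y : ℕ := N / 2 ^ G + 1 with hY
  set Z : ℕ := (2 ^ G * (2 * Y + 1)) / (2 * 3 ^ hh G) with hZ
  have h3pos : 0 < 3 ^ hh G := by positivity
  have h2pos : 0 < 2 ^ G := by positivity
  have hZ1 : 2 * 3 ^ hh G * Z ≤ 2 ^ G * (2 * Y + 1) := Nat.mul_div_le _ _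
  have hZ2 : 2 ^ G * (2 * Y + 1) < 2 * 3 ^ hh G * (Z + 1) :=
    Nat.lt_mul_div_succ _ (by positivity)
  have hOK : OK G (hh G) Y Z := by
    constructor
    · nlinarith
    · nlinarith
  have hYN : N < 2 ^ G * Y := Nat.lt_mul_div_succ _ h2pos
  have hYN2 : 2 ^ G * (Y + 1) ≤ N + 2 * 2 ^ G := by
    have h1 : 2 ^ G * (N / 2 ^ G) ≤ N := Nat.mul_div_le _ _
    calc 2 ^ G * (Y + 1) = 2 ^ G * (N / 2 ^ G) + 2 * 2 ^ G := by rw [hY]; ring
      _ ≤ N + 2 * 2 ^ G := by omega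
  have hYb : Y ≤ 2 ^ (m + t) + 1 := by
    have h1 : N / 2 ^ G < 2 ^ (m + t) := by
      rw [Nat.div_lt_iff_lt_mul h2pos]
      calc N < 2 ^ (G + m + t) := hA2
        _ = 2 ^ (m + t) * 2 ^ G := by ring
    omega
  have hZb : Z ≤ 3 * Y + 1 := by
    have h3 : 2 ^ G < 3 * 3 ^ hh G := by
      have := two_pow_lt G
      rw [pow_succ] at this
      omega
    by_contra hcon
    have hcon' : 3 * Y + 2 ≤ Z := by omega
    have h4 : 2 * 3 ^ hh G * (3 * Y + 2) ≤ 2 * 3 ^ hh G * Z := Nat.mul_le_mul_left _ hcon'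
    nlinarith
  have hspec := hn0 n hna n1 hn1R Y Z hOK
  have hhle : hh (n1 * m) ≤ hh G := by
    unfold hh
    apply Nat.log_mono_right
    apply Nat.pow_le_pow_right (by norm_num)
    exact Nat.mul_le_mul_right _ (by omega)
  set a : ℕ := (n - n1) * m with ha
  set b : ℕ := hh G - hh (n1 * m) with hb
  have haG : n1 * m + a = G := by
    rw [ha, hG, ← Nat.add_mul]
    congr 1
    omega
  have hbG : hh (n1 * m) + b = hh G := by omega
  have hGr : ((n * m : ℕ) : ℝ) = (n : ℝ) * m := by push_cast; ring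
  have hnR : (n : ℝ) / R - 1 ≤ n1 := by
    have h1 : n < R * (n1 + 1) := Nat.lt_mul_div_succ _ hRn
    have h2 : (n : ℝ) < R * (n1 + 1) := by exact_mod_cast h1
    rw [sub_le_iff_le_add, div_le_iff₀ hR0]
    linarith
  have hm0 : (1 : ℝ) ≤ m := by exact_mod_cast hm1
  have hcard := card_pairs_le (n1 * m) (hh (n1 * m)) a b Y Z k (κ * ((n * m : ℕ) : ℝ)) (by
    intro p hp
    have hpP := (Finset.mem_filter.1 hp).1
    have hpD : |DD p| ≤ κ * ((n * m : ℕ) : ℝ) := (Finset.mem_filter.1 hp).2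
    unfold PP at hpP
    have hpOK := (Finset.mem_filter.1 hpP).2
    refine hloc (n1 * m) ?_ _ _ hpOK _ ?_
    · calc g0 ≤ n1 * 1 := by omega
        _ ≤ n1 * m := Nat.mul_le_mul_left _ hm1
    · have hs2 : ((s 2 Y : ℕ) : ℝ) ≤ Y := by exact_mod_cast s_le_self 2 Y
      have hs3 : ((s 3 Z : ℕ) : ℝ) ≤ Z := by exact_mod_cast s_le_self 3 Z
      have hs20 : (0 : ℝ) ≤ ((s 2 Y : ℕ) : ℝ) := Nat.cast_nonneg _
      have hs30 : (0 : ℝ) ≤ ((s 3 Z : ℕ) : ℝ) := Nat.cast_nonneg _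
      have hYr : (Y : ℝ) ≤ 2 ^ (m + t) + 1 := by exact_mod_cast hYb
      have hZr : (Z : ℝ) ≤ 3 * Y + 1 := by exact_mod_cast hZb
      have hk0 : |((s 2 Y : ℕ) : ℝ) - ((s 3 Z : ℕ) : ℝ)| ≤ K0 := by
        rw [abs_le, hK0]
        constructor
        · linarith
        · linarith
      have hcalc : |(((k - ((s 2 Y : ℤ) - s 3 Z) - ((s 2 p.1 : ℤ) - s 3 p.2) : ℤ)) : ℝ)| ≤
          |(k : ℝ)| + K0 + κ * ((n * m : ℕ) : ℝ) := by
        push_cast
        calc |(k : ℝ) - (((s 2 Y : ℕ) : ℝ) - ((s 3 Z : ℕ) : ℝ)) -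
                (((s 2 p.1 : ℕ) : ℝ) - ((s 3 p.2 : ℕ) : ℝ))|
            ≤ |(k : ℝ) - (((s 2 Y : ℕ) : ℝ) - ((s 3 Z : ℕ) : ℝ))| +
                |((s 2 p.1 : ℕ) : ℝ) - ((s 3 p.2 : ℕ) : ℝ)| := abs_sub _ _
          _ ≤ |(k : ℝ)| + |((s 2 Y : ℕ) : ℝ) - ((s 3 Z : ℕ) : ℝ)| +
                |((s 2 p.1 : ℕ) : ℝ) - ((s 3 p.2 : ℕ) : ℝ)| := by
              gcongr
              exact abs_sub _ _
          _ ≤ |(k : ℝ)| + K0 + κ * ((n : ℝ) * m) := by
              have h1 : |((s 2 p.1 : ℕ) : ℝ) - ((s 3 p.2 : ℕ) : ℝ)| ≤ κ * ((n : ℝ) * m) := by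
                rw [← hGr]
                exact hpD
              linarith
      refine le_trans hcalc ?_
      rw [hGr]
      have h1 : (|(k : ℝ)| + K0 + c * m) * (4 * R) / c ≤ n := le_trans hn2 (by exact_mod_cast hnb)
      rw [div_le_iff₀ hc] at h1
      have h2 : |(k : ℝ)| + K0 + c * m ≤ n * c / (4 * R) := by
        rw [le_div_iff₀ (by positivity)]
        exact h1
      have h3 : κ * ((n : ℝ) * m) ≤ c / (4 * R) * ((n : ℝ) * m) :=
        mul_le_mul_of_nonneg_right hκ1 (by positivity)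
      have h4 : c * ((n : ℝ) / R - 1) * m ≤ c * ((n1 * m : ℕ) : ℝ) := by
        push_cast
        have : ((n : ℝ) / R - 1) * m ≤ (n1 : ℝ) * m :=
          mul_le_mul_of_nonneg_right hnR (by positivity)
        calc c * ((n : ℝ) / R - 1) * m = c * (((n : ℝ) / R - 1) * m) := by ring
          _ ≤ c * ((n1 : ℝ) * m) := mul_le_mul_of_nonneg_left this hc.le
      have h5 : (n : ℝ) * c / (4 * R) ≤ n * c / (4 * R) * m := by
        have : 0 ≤ (n : ℝ) * c / (4 * R) := by positivity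
        nlinarith
      have h6 : c * ((n : ℝ) / R - 1) * m = 4 * (n * c / (4 * R) * m) - c * m := by
        field_simp
      have h7 : c / (4 * R) * ((n : ℝ) * m) = n * c / (4 * R) * m := by ring
      have h8 : 0 ≤ n * c / (4 * R) * (m : ℝ) := by positivity
      linarith)
  rw [haG] at hcard
  -- the inclusion in the window
  have hsub : ((Finset.Ico (2 ^ G * Y) (2 ^ G * (Y + 1))).filter (fun n => d n = k)).card ≤
      ((Finset.Ico N ⌈(1 + δ0) * N⌉₊).filter (fun n => d n = k)).card := by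
    apply Finset.card_le_card
    apply Finset.filter_subset_filter
    apply Finset.Ico_subset_Ico
    · exact hYN.le
    · have h1 : ((2 ^ G * (Y + 1) : ℕ) : ℝ) ≤ (1 + δ0) * N := by
        have h2 : ((2 ^ G * (Y + 1) : ℕ) : ℝ) ≤ N + 2 * 2 ^ G := by exact_mod_cast hYN2
        have h3 : (2 : ℝ) ^ G * 2 ^ t ≤ N := by exact_mod_cast hA1
        have h4 : (2 : ℝ) * 2 ^ G ≤ δ0 * N := by
          calc (2 : ℝ) * 2 ^ G ≤ δ0 * 2 ^ t * 2 ^ G := by gcongr
            _ = δ0 * (2 ^ G * 2 ^ t) := by ring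
            _ ≤ δ0 * N := by gcongr
        linarith
      have h5 : ((2 ^ G * (Y + 1) : ℕ) : ℝ) ≤ (⌈(1 + δ0) * N⌉₊ : ℝ) := le_trans h1 (Nat.le_ceil _)
      exact_mod_cast h5
  have hcardR : (2 : ℝ) ^ (((a : ℕ) : ℝ) * H x0 - 2 * κ * ((n * m : ℕ) : ℝ)) ≤
      ((((Finset.Ico N ⌈(1 + δ0) * N⌉₊).filter (fun n => d n = k)).card : ℕ) : ℝ) := by
    refine le_trans hspec ?_
    exact_mod_cast le_trans hcard hsub
  refine le_trans ?_ hcardR
  have hN1 : (1 : ℝ) ≤ N := by exact_mod_cast hNpos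
  have hN2 : (N : ℝ) ≤ (2 : ℝ) ^ ((n : ℝ) * m + m + t) := by
    have h1 : (N : ℝ) ≤ (2 : ℝ) ^ (n * m + m + t) := by exact_mod_cast hA2.le
    have h2 : (2 : ℝ) ^ (n * m + m + t) = (2 : ℝ) ^ ((n : ℝ) * m + m + t) := by
      rw [← Real.rpow_natCast]
      push_cast
      rfl
    rw [← h2]
    exact h1
  have har : (n : ℝ) * m * (1 - 1 / R) ≤ (a : ℝ) := by
    have h1 : (a : ℝ) = ((n : ℝ) - n1) * m := by
      rw [ha]
      have : n1 ≤ n := by omega
      push_cast [Nat.cast_sub this]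
      ring
    rw [h1]
    have h2 : (n1 : ℝ) ≤ n / R := by
      have h3 : n1 * R ≤ n := Nat.div_mul_le_self n R
      rw [le_div_iff₀ hR0]
      exact_mod_cast h3
    have h4 : (n : ℝ) * (1 - 1 / R) ≤ n - n1 := by
      have : (n : ℝ) * (1 - 1 / R) = n - n / R := by ring
      linarith
    calc (n : ℝ) * m * (1 - 1 / R) = (n * (1 - 1 / R)) * m := by ring
      _ ≤ ((n : ℝ) - n1) * m := mul_le_mul_of_nonneg_right h4 (by positivity)
  have hnmbig : ((m : ℝ) + t) * 8 ≤ n * m * (5 * ε') := by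
    have h1 : ((m : ℝ) + t) * 8 / (5 * ε') ≤ n := le_trans hn3 (by exact_mod_cast hnc)
    rw [div_le_iff₀ (by positivity)] at h1
    have h2 : 0 ≤ (n : ℝ) * (5 * ε') := by positivity
    nlinarith
  calc (N : ℝ) ^ (H x0 - ε) ≤ (N : ℝ) ^ (H x0 - ε') := by
        apply Real.rpow_le_rpow_of_exponent_le hN1
        linarith
    _ ≤ ((2 : ℝ) ^ ((n : ℝ) * m + m + t)) ^ (H x0 - ε') := by
        apply Real.rpow_le_rpow (by positivity) hN2
        linarith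
    _ = (2 : ℝ) ^ (((n : ℝ) * m + m + t) * (H x0 - ε')) := by
        rw [← Real.rpow_mul (by norm_num)]
    _ ≤ (2 : ℝ) ^ (((a : ℕ) : ℝ) * H x0 - 2 * κ * ((n * m : ℕ) : ℝ)) := by
        apply Real.rpow_le_rpow_of_exponent_le (by norm_num)
        rw [hGr]
        have h1 : (n : ℝ) * m * (1 - 1 / R) * H x0 ≤ (a : ℝ) * H x0 :=
          mul_le_mul_of_nonneg_right har (by linarith)
        have h2 : (n : ℝ) * m * (1 / R) * H x0 ≤ (n : ℝ) * m * (ε' / 8) := by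
          have h3 : (1 / (R : ℝ)) * H x0 ≤ ε' / 8 := by
            calc (1 / (R : ℝ)) * H x0 ≤ (1 / (R : ℝ)) * 1 := by gcongr
              _ ≤ ε' / 8 := by linarith
          calc (n : ℝ) * m * (1 / R) * H x0 = (n : ℝ) * m * ((1 / R) * H x0) := by ring
            _ ≤ (n : ℝ) * m * (ε' / 8) := by gcongr
        have h4 : 2 * κ * ((n : ℝ) * m) ≤ 2 * (ε' / 8) * ((n : ℝ) * m) := by gcongr
        have h5 : ((m : ℝ) + t) * (H x0 - ε') ≤ (m : ℝ) + t := by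
          have : 0 ≤ (m : ℝ) + t := by positivity
          nlinarith
        have h6 : ((n : ℝ) * m + m + t) * (H x0 - ε') =
          (n : ℝ) * m * H x0 - n * m * ε' + ((m : ℝ) + t) * (H x0 - ε') := by ring
        have h7 : (n : ℝ) * m * (1 - 1 / R) * H x0 =
          (n : ℝ) * m * H x0 - (n : ℝ) * m * (1 / R) * H x0 := by ring
        rw [h6]
        nlinarith

end Pool.Agent.Helper47.EX
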