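import Pool.Agent.Helper47.EX.Inputs
import Pool.Agent.Helper47.EX.Chernoff

/-!
# EX-10, part 3: many well overlapping sub-cells with small difference of digit sums
-/

set_option autoImplicit false

namespace Pool.Agent.Helper47.EX

open Pool.Agent.Helper36.DC Finset

/-- The difference of digit sums of a pair. -/
noncomputable def DD (p : ℕ × ℕ) : ℝ := (s 2 p.1 : ℝ) - (s 3 p.2 : ℝ)

theorem lower_pairs (x0 : ℝ) (hx0 : 1 < x0) (hx1 : x0 < 13 / 10)
    (hder : ∀ c : ℝ, 0 < c → ∃ δ : ℝ, 0 < δ ∧ δ < 1 ∧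
      1 ≤ x0 * Real.exp (-δ) ∧ x0 * Real.exp δ ≤ 13 / 10 ∧
      H (x0 * Real.exp δ) ≤ H x0 + c * δ ∧ H (x0 * Real.exp (-δ)) ≤ H x0 + c * δ)
    (κ : ℝ) (hκ : 0 < κ) :
    ∃ m : ℕ, 1 ≤ m ∧ ∃ n0 : ℕ, ∀ n : ℕ, n0 ≤ n → ∀ n1 : ℕ, 2 * n1 ≤ n → ∀ Y Z : ℕ,
      OK (n * m) (hh (n * m)) Y Z →
      (2 : ℝ) ^ ((((n - n1) * m : ℕ) : ℝ) * H x0 - 2 * κ * ((n * m : ℕ) : ℝ)) ≤
        ((((PP (n1 * m) (hh (n1 * m)) ((n - n1) * m) (hh (n * m) - hh (n1 * m)) Y Z).filter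
          (fun p => |DD p| ≤ κ * ((n * m : ℕ) : ℝ))).card : ℕ) : ℝ) := by
  obtain ⟨δ, hδ, hδ1, hlo, hup, hH1, hH2⟩ := hder (κ / 4) (by positivity)
  have hx00 : 0 < x0 := by linarith
  have he1 : 1 ≤ Real.exp δ := Real.one_le_exp hδ.le
  have he2 : Real.exp (-δ) ≤ 1 := Real.exp_le_one_iff.2 (by linarith)
  have hxu : 1 ≤ x0 * Real.exp δ := by nlinarith
  have hxl : x0 * Real.exp (-δ) ≤ 13 / 10 := by nlinarith
  obtain ⟨C1, hC11, hC1⟩ := Inputs.upper_main _ hxu hup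
  obtain ⟨C2, hC21, hC2⟩ := Inputs.upper_main _ hlo hxl
  set ε1 : ℝ := δ * κ / 4 with hε1
  obtain ⟨m0, hm0⟩ := Inputs.lower_main x0 hx0.le hx1.le ε1 (by positivity)
  set C : ℝ := max C1 C2 with hC
  have hC0 : 1 ≤ C := le_trans hC11 (le_max_left _ _)
  obtain ⟨m1, hm1⟩ := exists_nat_ge (4 * Real.log C / (δ * κ))
  set m : ℕ := max m0 (max m1 1) with hm
  have hmm0 : m0 ≤ m := le_max_left _ _
  have hmm1 : m1 ≤ m := le_trans (le_max_left _ _) (le_max_right _ _)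
  have hm1' : 1 ≤ m := le_trans (le_max_right _ _) (le_max_right _ _)
  have hCm : C ≤ Real.exp (δ * κ * m / 4) := by
    have h1 : 4 * Real.log C / (δ * κ) ≤ m := le_trans hm1 (by exact_mod_cast hmm1)
    rw [div_le_iff₀ (by positivity)] at h1
    rw [← Real.log_le_iff_le_exp (by linarith)]
    linarith
  obtain ⟨n01, hn01⟩ := hC1 m hm1'
  obtain ⟨n02, hn02⟩ := hC2 m hm1'
  obtain ⟨n03, hn03⟩ := hm0 m hmm0
  obtain ⟨n04, hn04⟩ := exists_nat_ge (4 * Real.log 4 / (δ * κ) + 2 / κ)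
  refine ⟨m, hm1', max (max n01 n02) (max n03 n04), ?_⟩
  intro n hn n1 hn1 Y Z hOK
  have hna : n01 ≤ n := le_trans (le_trans (le_max_left _ _) (le_max_left _ _)) hn
  have hnb : n02 ≤ n := le_trans (le_trans (le_max_right _ _) (le_max_left _ _)) hn
  have hnc : n03 ≤ n := le_trans (le_trans (le_max_left _ _) (le_max_right _ _)) hn
  have hnd : n04 ≤ n := le_trans (le_trans (le_max_right _ _) (le_max_right _ _)) hn
  set a : ℕ := (n - n1) * m with ha
  set b : ℕ := hh (n * m) - hh (n1 * m) with hb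
  set G : ℝ := ((n * m : ℕ) : ℝ) with hG
  have hG0 : 0 ≤ G := Nat.cast_nonneg _
  have haG : (a : ℝ) ≤ G := by
    rw [hG]
    have : a ≤ n * m := Nat.mul_le_mul_right _ (Nat.sub_le _ _)
    exact_mod_cast this
  have ha0 : (0 : ℝ) ≤ a := Nat.cast_nonneg _
  have hnG : (n : ℝ) ≤ G := by
    rw [hG]
    have : n ≤ n * m := Nat.le_mul_of_pos_right _ (by omega)
    exact_mod_cast this
  have hlogC : 0 ≤ Real.log C := Real.log_nonneg hC0
  have hlog4 : 0 < Real.log 4 := Real.log_pos (by norm_num)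
  have hGbig : 4 * Real.log 4 / (δ * κ) + 2 / κ ≤ G :=
    le_trans (le_trans hn04 (by exact_mod_cast hnd)) hnG
  have hG1 : 4 * Real.log 4 ≤ δ * κ * G := by
    have h1 : 4 * Real.log 4 / (δ * κ) ≤ G := by
      have : 0 < 2 / κ := by positivity
      linarith
    rw [div_le_iff₀ (by positivity)] at h1
    linarith
  have hG2 : 2 ≤ κ * G := by
    have h1 : 2 / κ ≤ G := by
      have : 0 < 4 * Real.log 4 / (δ * κ) := by positivity
      linarith
    rw [div_le_iff₀ hκ] at h1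
    linarith
  have hlow := hn03 n hnc n1 (by omega) Y Z hOK
  have hu1 := hn01 n hna n1 hn1 Y Z
  have hu2 := hn02 n hnb n1 hn1 Y Z
  set P := PP (n1 * m) (hh (n1 * m)) a b Y Z with hP
  set A : ℝ := (2 : ℝ) ^ ((a : ℝ) * H x0 - ε1 * G) with hA
  set B : ℝ := C ^ n * (2 : ℝ) ^ ((a : ℝ) * (H x0 + κ / 4 * δ)) with hB
  have hlogexp : Real.log (x0 * Real.exp δ) = Real.log x0 + δ := by
    rw [Real.log_mul hx00.ne' (Real.exp_pos _).ne', Real.log_exp]
  have hlogexp' : Real.log (x0 * Real.exp (-δ)) = Real.log x0 - δ := by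
    rw [Real.log_mul hx00.ne' (Real.exp_pos _).ne', Real.log_exp]
    ring
  have hA' : A ≤ ∑ p ∈ P, Real.exp (Real.log x0 * DD p) := by
    rw [SOK_eq x0 hx00] at hlow
    exact hlow
  have hB1 : ∑ p ∈ P, Real.exp ((Real.log x0 + δ) * DD p) ≤ B := by
    have h1 := SOK_eq (x0 * Real.exp δ) (by linarith) (n1 * m) (hh (n1 * m)) a b Y Z
    rw [hlogexp] at h1
    have h2 : ∑ p ∈ P, Real.exp ((Real.log x0 + δ) * DD p) =
      SOK (x0 * Real.exp δ) (n1 * m) (hh (n1 * m)) a b Y Z := h1.symm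
    rw [h2]
    refine le_trans (SOK_le_SOv _ (by linarith) _ _ _ _ _ _) (le_trans hu1 ?_)
    have h3 : C1 ^ n ≤ C ^ n := pow_le_pow_left₀ (by linarith) (le_max_left _ _) n
    have h4 : (2 : ℝ) ^ ((a : ℝ) * H (x0 * Real.exp δ)) ≤
        (2 : ℝ) ^ ((a : ℝ) * (H x0 + κ / 4 * δ)) := by
      apply Real.rpow_le_rpow_of_exponent_le (by norm_num)
      exact mul_le_mul_of_nonneg_left hH1 ha0
    rw [hB]
    gcongr
  have hB2 : ∑ p ∈ P, Real.exp ((Real.log x0 - δ) * DD p) ≤ B := by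
    have h1 := SOK_eq (x0 * Real.exp (-δ)) (by linarith) (n1 * m) (hh (n1 * m)) a b Y Z
    rw [hlogexp'] at h1
    have h2 : ∑ p ∈ P, Real.exp ((Real.log x0 - δ) * DD p) =
      SOK (x0 * Real.exp (-δ)) (n1 * m) (hh (n1 * m)) a b Y Z := h1.symm
    rw [h2]
    refine le_trans (SOK_le_SOv _ (by linarith) _ _ _ _ _ _) (le_trans hu2 ?_)
    have h3 : C2 ^ n ≤ C ^ n := pow_le_pow_left₀ (by linarith) (le_max_right _ _) n
    have h4 : (2 : ℝ) ^ ((a : ℝ) * H (x0 * Real.exp (-δ))) ≤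
        (2 : ℝ) ^ ((a : ℝ) * (H x0 + κ / 4 * δ)) := by
      apply Real.rpow_le_rpow_of_exponent_le (by norm_num)
      exact mul_le_mul_of_nonneg_left hH2 ha0
    rw [hB]
    gcongr
  have hlog2 : Real.log 2 < 1 := by
    have := Real.log_two_lt_d9
    linarith
  have hlog20 : 0 < Real.log 2 := Real.log_pos (by norm_num)
  have hCn : C ^ n ≤ Real.exp (δ * κ * G / 4) := by
    calc C ^ n ≤ (Real.exp (δ * κ * m / 4)) ^ n := pow_le_pow_left₀ (by linarith) hCm n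
      _ = Real.exp (δ * κ * G / 4) := by
        rw [← Real.exp_nat_mul, hG]
        congr 1
        push_cast
        ring
  have h2a : (2 : ℝ) ^ ((a : ℝ) * (κ / 4 * δ)) ≤ Real.exp (δ * κ * G / 4) := by
    rw [Real.rpow_def_of_pos (by norm_num)]
    apply Real.exp_le_exp.2
    have h1 : 0 ≤ (a : ℝ) * (κ / 4 * δ) := by positivity
    have h2 : (a : ℝ) * (κ / 4 * δ) ≤ G * (κ / 4 * δ) := by gcongr
    nlinarith
  have h2A : (2 : ℝ) ^ ((a : ℝ) * H x0) * Real.exp (-(δ * κ * G / 4)) ≤ A := by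
    rw [hA, sub_eq_add_neg, Real.rpow_add (by norm_num)]
    apply mul_le_mul_of_nonneg_left _ (by positivity)
    rw [Real.rpow_def_of_pos (by norm_num)]
    apply Real.exp_le_exp.2
    rw [hε1]
    have : 0 ≤ δ * κ / 4 * G := by positivity
    nlinarith
  have hAB : 2 * (Real.exp (-(δ * (κ * G))) * B) ≤ A / 2 := by
    have h1 : Real.exp (-(δ * (κ * G))) * B ≤
        (2 : ℝ) ^ ((a : ℝ) * H x0) * Real.exp (-(δ * κ * G / 2)) := by
      rw [hB, mul_add, Real.rpow_add (by norm_num)]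
      calc Real.exp (-(δ * (κ * G))) * (C ^ n * ((2 : ℝ) ^ ((a : ℝ) * H x0) *
              (2 : ℝ) ^ ((a : ℝ) * (κ / 4 * δ))))
          ≤ Real.exp (-(δ * (κ * G))) * (Real.exp (δ * κ * G / 4) *
            ((2 : ℝ) ^ ((a : ℝ) * H x0) * Real.exp (δ * κ * G / 4))) := by gcongr
        _ = (2 : ℝ) ^ ((a : ℝ) * H x0) * (Real.exp (-(δ * (κ * G))) *
              Real.exp (δ * κ * G / 4) * Real.exp (δ * κ * G / 4)) := by ring
        _ = (2 : ℝ) ^ ((a : ℝ) * H x0) * Real.exp (-(δ * κ * G / 2)) := by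
            rw [← Real.exp_add, ← Real.exp_add]
            ring_nf
    have h2 : Real.exp (-(δ * κ * G / 2)) ≤ Real.exp (-(δ * κ * G / 4)) * (1 / 4) := by
      have h3 : Real.exp (-(δ * κ * G / 4)) ≤ 1 / 4 := by
        rw [show (1 / 4 : ℝ) = Real.exp (-Real.log 4) by
          rw [Real.exp_neg, Real.exp_log (by norm_num)]; norm_num]
        apply Real.exp_le_exp.2
        linarith
      calc Real.exp (-(δ * κ * G / 2))
          = Real.exp (-(δ * κ * G / 4)) * Real.exp (-(δ * κ * G / 4)) := by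
            rw [← Real.exp_add]
            ring_nf
        _ ≤ Real.exp (-(δ * κ * G / 4)) * (1 / 4) := by gcongr
    have h5 : 0 < (2 : ℝ) ^ ((a : ℝ) * H x0) := by positivity
    calc 2 * (Real.exp (-(δ * (κ * G))) * B)
        ≤ 2 * ((2 : ℝ) ^ ((a : ℝ) * H x0) * (Real.exp (-(δ * κ * G / 4)) * (1 / 4))) := by
          have h6 : (2 : ℝ) ^ ((a : ℝ) * H x0) * Real.exp (-(δ * κ * G / 2)) ≤
              (2 : ℝ) ^ ((a : ℝ) * H x0) * (Real.exp (-(δ * κ * G / 4)) * (1 / 4)) :=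
            mul_le_mul_of_nonneg_left h2 h5.le
          linarith
      _ = ((2 : ℝ) ^ ((a : ℝ) * H x0) * Real.exp (-(δ * κ * G / 4))) / 2 := by ring
      _ ≤ A / 2 := by linarith
  have hl2 : Real.log x0 ≤ Real.log 2 := Real.log_le_log hx00 (by linarith)
  have hmain := chernoff P DD (Real.log x0) δ (κ * G) A B hδ (by positivity)
    (Real.log_nonneg hx0.le) hl2 hA' hB1 hB2 hAB
  have hfin : (2 : ℝ) ^ ((a : ℝ) * H x0 - 2 * κ * G) * (2 : ℝ) ^ (κ * G) ≤ A / 2 := by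
    rw [← Real.rpow_add (by norm_num)]
    have h1 : A / 2 = (2 : ℝ) ^ ((a : ℝ) * H x0 - ε1 * G - 1) := by
      rw [Real.rpow_sub_one (by norm_num)]
    rw [h1]
    apply Real.rpow_le_rpow_of_exponent_le (by norm_num)
    have h2 : ε1 * G ≤ κ * G / 4 := by
      rw [hε1]
      have : 0 ≤ κ * G := by positivity
      nlinarith
    linarith
  have h2T : 0 < (2 : ℝ) ^ (κ * G) := by positivity
  have h6 : (2 : ℝ) ^ ((a : ℝ) * H x0 - 2 * κ * G) * (2 : ℝ) ^ (κ * G) ≤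
      (((P.filter (fun p => |DD p| ≤ κ * G)).card : ℕ) : ℝ) * (2 : ℝ) ^ (κ * G) := by
    refine le_trans hfin (le_trans hmain (le_of_eq ?_))
    ring
  exact le_of_mul_le_mul_right h6 h2T

end Pool.Agent.Helper47.EX
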