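import Pool.Agent.Helper47.EX.LowerCount
import Pool.Agent.Helper47.EX.HNum

/-!
# EX-10: the exact exponent
-/

set_option autoImplicit false

namespace Pool.Agent.Helper47.EX

open Pool.Agent.Helper36.DC Finset

theorem main : ∃ η : ℝ, IsLeast {y : ℝ | ∃ x : ℝ, 0 < x ∧ y = H x} η ∧ 0.9815 < η ∧ η < 0.9816 ∧
    ∀ (k : ℤ) (δ : ℝ), 0 < δ → ∀ ε : ℝ, 0 < ε → ∀ᶠ N : ℕ in Filter.atTop,
      (N : ℝ) ^ (η - ε) ≤
        ((((Finset.Ico N ⌈(1 + δ) * N⌉₊).filter (fun n => d n = k)).card : ℕ) : ℝ) ∧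
      ((((Finset.range N).filter (fun n => d n = k)).card : ℕ) : ℝ) ≤ (N : ℝ) ^ (η + ε) := by
  obtain ⟨x0, hx0, hx1, hmin, h981, h982, hder⟩ := Inputs.H_min
  obtain ⟨hn1, hn2⟩ := H_min_num x0 hx0 hx1 hmin
  refine ⟨H x0, ⟨⟨x0, by linarith, rfl⟩, ?_⟩, hn1, hn2, ?_⟩
  · rintro y ⟨x, hx, rfl⟩
    exact hmin x hx
  · intro k δ hδ ε hε
    have h1 := lower_count x0 hx0 hx1 h981 (by linarith) hder k δ hδ ε hε
    have h2 := upper_count x0 hx0.le hx1.le (by linarith) k ε hε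
    exact h1.and h2

end Pool.Agent.Helper47.EX
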