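import Pool.Agent.Helper47.EX.Defs

/-!
Exact statements of the modules EX-1 .. EX-10 (with `sorry`; never imported by a hand-in).
-/

set_option autoImplicit false

namespace Pool.Agent.Helper47.EX.Stmts

open Pool.Agent.Helper36.DC Pool.Agent.Helper47.EX Finset

/-! ## EX-1  Equi.lean -/

theorem th_mem (g : ℕ) : 1 / 3 < th g ∧ th g ≤ 1 := sorry

theorem equi (m : ℕ) (hm : 1 ≤ m) (f : ℝ → ℝ) (hf : ContinuousOn f (Set.Icc (1 / 3) 1))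
    (hf0 : ∀ θ ∈ Set.Icc (1 / 3 : ℝ) 1, 0 ≤ f θ) (ε : ℝ) (hε : 0 < ε) :
    ∃ n0 : ℕ, ∀ n : ℕ, n0 ≤ n →
      ∑ i ∈ range n, f (th (i * m)) ≤ n * (30 * (∫ θ in (1 / 3 : ℝ)..1, f θ) + ε) := sorry

/-! ## EX-2  Transfer.lean -/

theorem transfer (B : ℕ) (hB : 0 < B) (f G : ℝ → ℝ) (hf : Continuous f) (hG : Continuous G)
    (hper : ∀ t, G (t + 1) = G t) (hG0 : ∀ t, 0 ≤ G t) (c : ℝ)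
    (hc : ∀ t : ℝ, ∑ i ∈ range B, f ((t + i) / B) ≤ B * c) :
    ∫ t in (0 : ℝ)..1, f t * G (B * t) ≤ c * ∫ t in (0 : ℝ)..1, G t := sorry

theorem two_step (p p' : ℝ) (hp : 1 ≤ p) (hp1 : p ≤ 13 / 10) (hp' : 1 ≤ p') (hp1' : p' ≤ 13 / 10)
    (t : ℝ) :
    ∑ i ∈ range 4, phi2 p ((t + i) / 4) * phi2 p' (2 * ((t + i) / 4)) ≤ 4 * 0.473 := sorry

theorem three_step (q : ℝ) (hq : 1 ≤ q) (hq1 : q ≤ 13 / 10) (t : ℝ) :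
    ∑ i ∈ range 3, phi3 q ((t + i) / 3) ^ 2 ≤ 3 * 0.5903 ^ 2 := sorry

theorem aa_int (p : ℕ → ℝ) (hp : Par p) (j : ℕ) :
    ∫ ξ in (0 : ℝ)..1, aa p j ξ ≤ 0.473 ^ (j / 2) := sorry

theorem bb_int (q : ℕ → ℝ) (hq : Par q) (k : ℕ) :
    ∫ ξ in (0 : ℝ)..1, bb q k ξ ≤ 0.5903 ^ k := sorry

/-! ## EX-3  Average.lean (uses EX-2) -/

theorem EE_continuousOn (p q : ℕ → ℝ) (hp : Par p) (hq : Par q) (m w : ℕ) :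
    ContinuousOn (EE p q m w) (Set.Icc (1 / 3) 1) := sorry

theorem TT_continuousOn (p q : ℕ → ℝ) (hp : Par p) (hq : Par q) (m w j L : ℕ) :
    ContinuousOn (TT p q m w j L) (Set.Icc (1 / 3) 1) := sorry

theorem EE_nonneg (p q : ℕ → ℝ) (hp : Par p) (hq : Par q) (m w : ℕ) (θ : ℝ) :
    0 ≤ EE p q m w θ := sorry

theorem TT_nonneg (p q : ℕ → ℝ) (hp : Par p) (hq : Par q) (m w j L : ℕ) (θ : ℝ) :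
    0 ≤ TT p q m w j L θ := sorry

theorem avg_EE : ∃ C : ℝ, 1 ≤ C ∧ ∀ (p q : ℕ → ℝ), Par p → Par q → ∀ m w : ℕ,
    2 ^ m ≤ 3 ^ (w + 1) → ∫ θ in (1 / 3 : ℝ)..1, EE p q m w θ ≤ C := sorry

theorem avg_TT : ∃ C : ℝ, 1 ≤ C ∧ ∀ (p q : ℕ → ℝ), Par p → Par q → ∀ m w j L : ℕ,
    2 ^ m ≤ 3 ^ (w + 1) → j ≤ m → 1 ≤ L →
      ∫ θ in (1 / 3 : ℝ)..1, TT p q m w j L θ ≤ C * (0.993 ^ j + L * 0.993 ^ m) := sorry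

/-! ## EX-4  Window.lean -/

theorem KK_nonneg (w y : ℝ) (hw : 0 < w) : 0 ≤ KK w y := sorry

theorem KK_le (w y : ℝ) (hw : 0 < w) : KK w y ≤ w := sorry

theorem KK_lower (w y : ℝ) (hw : 0 < w) (h : |w * y| ≤ 1 / 2) :
    4 / Real.pi ^ 2 * w ≤ KK w y := sorry

theorem KK_tail (w y : ℝ) (hw : 0 < w) (hy : y ≠ 0) : KK w y ≤ 1 / (Real.pi ^ 2 * w * y ^ 2) :=
  sorry

theorem W2_sum (p : ℕ → ℝ) (hp : Par p) (m : ℕ) : ∑ u ∈ range (2 ^ m), W2 p m u = 1 := sorry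

theorem W3_sum (q : ℕ → ℝ) (hq : Par q) (w : ℕ) : ∑ v ∈ range (3 ^ w), W3 q w v = 1 := sorry

theorem W_cos (p q : ℕ → ℝ) (hp : Par p) (hq : Par q) (m w : ℕ) (θ τ ξ : ℝ) :
    |∑ u ∈ range (2 ^ m), ∑ v ∈ range (3 ^ w),
      W2 p m u * W3 q w v * Real.cos (2 * Real.pi * ξ * (u - θ * v - τ))|
      ≤ aa p m ξ * bb q w (θ * ξ) := sorry

theorem window_upper (p q : ℕ → ℝ) (hp : Par p) (hq : Par q) (m w : ℕ) (θ τ : ℝ) :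
    ∑ u ∈ range (2 ^ m), ∑ v ∈ range (3 ^ w),
      (if |(u : ℝ) - θ * v - τ| ≤ 1 then W2 p m u * W3 q w v else 0)
      ≤ 5 / 2 ^ m * EE p q m w θ := sorry

theorem window_lower (x : ℝ) (hx : 1 ≤ x) (hx1 : x ≤ 13 / 10) (m w j w0 L : ℕ) (θ τ E0 : ℝ)
    (hj : j ≤ m) (hw0 : w0 ≤ w) (h1 : 2 ^ j ≤ 3 ^ w0) (h2 : 3 ^ w0 < 3 * 2 ^ j)
    (h3 : 3 ≤ w0) (hm : 6 ≤ m) (hθ : 1 / 3 ≤ θ) (hθ1 : θ ≤ 1)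
    (hθw : (2 : ℝ) ^ m / 3 ≤ θ * 3 ^ w) (hθw1 : θ * 3 ^ w ≤ 2 ^ m)
    (hτ : -(θ * 3 ^ w) + 2 ^ m / 6 - 1 / 2 ≤ τ) (hτ1 : τ ≤ 5 / 6 * 2 ^ m)
    (hT : TT (mix x m j) (mix x w w0) m w j L θ ≤ 1 / 280)
    (hE : EE (mix x m j) (mix x w w0) m w θ ≤ E0) (hE0 : 1 ≤ E0) (hL : 10000 * E0 ≤ L) :
    1 / (280 * L * 2 ^ m) ≤ ∑ u ∈ range (2 ^ m), ∑ v ∈ range (3 ^ w),
      (if |(u : ℝ) - θ * v - τ| ≤ 1 / 2 then W2 (mix x m j) m u * W3 (mix x w w0) w v else 0) :=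
  sorry

/-! ## EX-5  Block.lean (uses EX-4) -/

theorem SOv_block (x : ℝ) (g h a b m w Y Z : ℕ) :
    SOv x g h (a + m) (b + w) Y Z = ∑ u ∈ range (2 ^ m), ∑ v ∈ range (3 ^ w),
      x ^ (s 2 u) / x ^ (s 3 v) * SOv x g h a b (2 ^ m * Y + u) (3 ^ w * Z + v) := sorry

theorem SOK_block (x : ℝ) (g h a b m w Y Z : ℕ) :
    SOK x g h (a + m) (b + w) Y Z = ∑ u ∈ range (2 ^ m), ∑ v ∈ range (3 ^ w),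
      x ^ (s 2 u) / x ^ (s 3 v) * SOK x g h a b (2 ^ m * Y + u) (3 ^ w * Z + v) := sorry

theorem block_upper (x : ℝ) (hx : 1 ≤ x) (hx1 : x ≤ 13 / 10) (g h a b m w : ℕ)
    (h1 : 3 ^ (h + b) ≤ 2 ^ (g + a)) (B : ℝ) (hB0 : 0 ≤ B)
    (hB : ∀ Y Z, SOv x g h a b Y Z ≤ B) (Y Z : ℕ) :
    SOv x g h (a + m) (b + w) Y Z ≤
      5 * EE (fun _ => x) (fun _ => x) m w ((3 : ℝ) ^ (h + b) / 2 ^ (g + a))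
        * ((1 + x) ^ m * (1 + x⁻¹ + x⁻¹ ^ 2) ^ w / 2 ^ m) * B := sorry

theorem block_lower (x : ℝ) (hx : 1 ≤ x) (hx1 : x ≤ 13 / 10) (g h a b m w j w0 L : ℕ) (E0 : ℝ)
    (h1 : 3 ^ (h + b) ≤ 2 ^ (g + a)) (h2 : 2 ^ (g + a) < 3 ^ (h + b + 1))
    (h3 : 3 ^ (h + b + w) ≤ 2 ^ (g + a + m)) (h4 : 2 ^ (g + a + m) < 3 ^ (h + b + w + 1))
    (hj : j ≤ m) (hw0 : w0 ≤ w) (h5 : 2 ^ j ≤ 3 ^ w0) (h6 : 3 ^ w0 < 3 * 2 ^ j)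
    (h7 : 3 ≤ w0) (hm : 6 ≤ m)
    (hT : TT (mix x m j) (mix x w w0) m w j L ((3 : ℝ) ^ (h + b) / 2 ^ (g + a)) ≤ 1 / 280)
    (hE : EE (mix x m j) (mix x w w0) m w ((3 : ℝ) ^ (h + b) / 2 ^ (g + a)) ≤ E0)
    (hE0 : 1 ≤ E0) (hL : 10000 * E0 ≤ L)
    (B : ℝ) (hB0 : 0 ≤ B)
    (hB : ∀ Y Z, OK (g + a) (h + b) Y Z → B ≤ SOK x g h a b Y Z) (Y Z : ℕ)
    (hOK : OK (g + a + m) (h + b + w) Y Z) :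
    (1 / (280 * L)) * ((2 / (1 + x)) ^ j * (3 / (x ^ 2 * (1 + x⁻¹ + x⁻¹ ^ 2))) ^ w0)
        * ((1 + x) ^ m * (1 + x⁻¹ + x⁻¹ ^ 2) ^ w / 2 ^ m) * B
      ≤ SOK x g h (a + m) (b + w) Y Z := sorry

theorem block_bad (x : ℝ) (hx : 1 ≤ x) (g h a b m w : ℕ)
    (h1 : 3 ^ (h + b) ≤ 2 ^ (g + a)) (h2 : 2 ^ (g + a) < 3 ^ (h + b + 1))
    (h3 : 3 ^ (h + b + w) ≤ 2 ^ (g + a + m)) (h4 : 2 ^ (g + a + m) < 3 ^ (h + b + w + 1))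
    (hm : 4 ≤ m) (B : ℝ) (hB0 : 0 ≤ B)
    (hB : ∀ Y Z, OK (g + a) (h + b) Y Z → B ≤ SOK x g h a b Y Z) (Y Z : ℕ)
    (hOK : OK (g + a + m) (h + b + w) Y Z) :
    (1 / x ^ (2 * w)) * B ≤ SOK x g h (a + m) (b + w) Y Z := sorry

/-! ## EX-6  UpperMain.lean (uses EX-1, EX-3, EX-5) -/

theorem upper_main (x : ℝ) (hx : 1 ≤ x) (hx1 : x ≤ 13 / 10) :
    ∃ C : ℝ, 1 ≤ C ∧ ∀ m : ℕ, 1 ≤ m → ∃ n0 : ℕ, ∀ n : ℕ, n0 ≤ n → ∀ n1 : ℕ, 2 * n1 ≤ n →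
      ∀ Y Z : ℕ,
        SOv x (n1 * m) (hh (n1 * m)) ((n - n1) * m) (hh (n * m) - hh (n1 * m)) Y Z
          ≤ C ^ n * (2 : ℝ) ^ ((((n - n1) * m : ℕ) : ℝ) * H x) := sorry

/-! ## EX-7  LowerMain.lean (uses EX-1, EX-3, EX-5) -/

theorem lower_main (x : ℝ) (hx : 1 ≤ x) (hx1 : x ≤ 13 / 10) (ε : ℝ) (hε : 0 < ε) :
    ∃ m0 : ℕ, ∀ m : ℕ, m0 ≤ m → ∃ n0 : ℕ, ∀ n : ℕ, n0 ≤ n → ∀ n1 : ℕ, n1 ≤ n →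
      ∀ Y Z : ℕ, OK (n * m) (hh (n * m)) Y Z →
        (2 : ℝ) ^ ((((n - n1) * m : ℕ) : ℝ) * H x - ε * ((n * m : ℕ) : ℝ)) ≤
          SOK x (n1 * m) (hh (n1 * m)) ((n - n1) * m) (hh (n * m) - hh (n1 * m)) Y Z := sorry

/-! ## EX-8  Local.lean -/

theorem local_windows : ∃ c : ℝ, 0 < c ∧ ∃ g0 : ℕ, ∀ g : ℕ, g0 ≤ g → ∀ Y Z : ℕ,
    OK g (hh g) Y Z → ∀ t : ℤ, |(t : ℝ)| ≤ c * g →
      ∃ n : ℕ, n / 2 ^ g = Y ∧ n / 3 ^ hh g = Z ∧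
        (s 2 (n % 2 ^ g) : ℤ) - (s 3 (n % 3 ^ hh g) : ℤ) = t := sorry

/-! ## EX-9  HFacts.lean -/

theorem H_min : ∃ x0 : ℝ, 1 < x0 ∧ x0 < 13 / 10 ∧ (∀ x : ℝ, 0 < x → H x0 ≤ H x) ∧
    0.981 < H x0 ∧ H x0 < 0.982 ∧
    ∀ c : ℝ, 0 < c → ∃ δ : ℝ, 0 < δ ∧ δ < 1 ∧
      1 ≤ x0 * Real.exp (-δ) ∧ x0 * Real.exp δ ≤ 13 / 10 ∧
      H (x0 * Real.exp δ) ≤ H x0 + c * δ ∧ H (x0 * Real.exp (-δ)) ≤ H x0 + c * δ := sorry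

/-! ## EX-10  Main.lean (uses EX-6, EX-7, EX-8, EX-9) -/

theorem main : ∃ η : ℝ, IsLeast {y : ℝ | ∃ x : ℝ, 0 < x ∧ y = H x} η ∧ 0.981 < η ∧ η < 0.982 ∧
    ∀ (k : ℤ) (δ : ℝ), 0 < δ → ∀ ε : ℝ, 0 < ε → ∀ᶠ N : ℕ in Filter.atTop,
      (N : ℝ) ^ (η - ε) ≤
        ((((Finset.Ico N ⌈(1 + δ) * N⌉₊).filter (fun n => d n = k)).card : ℕ) : ℝ) ∧
      ((((Finset.range N).filter (fun n => d n = k)).card : ℕ) : ℝ) ≤ (N : ℝ) ^ (η + ε) := sorry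

end Pool.Agent.Helper47.EX.Stmts
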